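import Pool.Agent.H104.ML.Stm

set_option autoImplicit false

open Polynomial Finset Matrix

namespace Pool.Agent.Q186.ML

open Pool.Agent.H104.ML

theorem t_CORE (h1 : S_VOL) (h2 : S_RED) (h3 : S_DET) (h4 : S_KILL) (h5 : S_REAL) (h6 : S_CONJ)
    (h7 : S_CHEB) : S_CORE := by
  intro g D n α hg hmap hα hn hDn hE
  have hnR : (0 : ℝ) < (n : ℝ) := by exact_mod_cast hn
  have hsq : (0 : ℝ) < Real.sqrt n := Real.sqrt_pos.mpr hnR
  have hdeg : g.natDegree = D := by
    have ha : (g.map (Int.castRingHom ℂ)).natDegree = g.natDegree := hg.natDegree_map _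
    rw [← ha, hmap, natDegree_prod_of_monic _ _ fun s _ => monic_X_sub_C _]
    simp
  subst hdeg
  obtain ⟨P, hP⟩ := h7 n hn
  obtain ⟨B, hBdet, hBsum⟩ := h5 g.natDegree (Vm α P) (h6 g g.natDegree α P hmap)
  have hPd : ∀ t, (P t).natDegree ≤ t := fun t => (hP t).1
  have hdet := h3 g.natDegree α P hα hPd
  have hkill := h4 g g.natDegree α P hg hmap hPd
  obtain ⟨hred1, hred2⟩ := h2 g n hg
  apply hred2
  have hV := h1 g.natDegree n (fun i j => redc g i j) B hn ?_ hDn ?_ ?_
  · exact hV
  · intro i k h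
    rw [hred1 i k i.2 k.2]
    simp only [Fin.ext_iff]
  · have hcol : ∀ j : Fin n, ∑ s, (∑ i, B s i * ((redc g i j : ℤ) : ℝ)) ^ 2 ≤
        (g.natDegree : ℝ) / n := by
      intro j
      rw [hBsum (fun i => ((redc g i j : ℤ) : ℝ))]
      have hs : ∀ s ∈ (univ : Finset (Fin g.natDegree)),
          ‖∑ i, Vm α P s i * ((((redc g i j : ℤ) : ℝ)) : ℂ)‖ ^ 2 ≤ 1 / (n : ℝ) := by
        intro s _
        have he : ∑ i, Vm α P s i * ((((redc g i j : ℤ) : ℝ)) : ℂ) =
            α s ^ (j : ℕ) * (((P (tau α s)).eval ((j : ℕ) : ℝ) : ℝ) : ℂ) := by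
          rw [hkill s j, Finset.sum_range]
          refine Finset.sum_congr rfl fun i _ => ?_
          simp only [Vm]
          push_cast
          ring
        rw [he, norm_mul, norm_pow, hα s, one_pow, one_mul, Complex.norm_real, Real.norm_eq_abs]
        have hb := (hP (tau α s)).2.2 j j.2
        calc |(P (tau α s)).eval ((j : ℕ) : ℝ)| ^ 2 ≤ (1 / Real.sqrt n) ^ 2 :=
              pow_le_pow_left₀ (abs_nonneg _) hb 2
          _ = 1 / (n : ℝ) := by
              rw [div_pow, one_pow, Real.sq_sqrt hnR.le]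
      refine (Finset.sum_le_sum hs).trans (le_of_eq ?_)
      rw [Finset.sum_const, Finset.card_univ, Fintype.card_fin, nsmul_eq_mul]
      ring
    refine (Finset.sum_le_sum fun j _ => hcol j).trans (le_of_eq ?_)
    rw [Finset.sum_const, Finset.card_univ, Fintype.card_fin, nsmul_eq_mul]
    field_simp
  · rw [hBdet, hdet]
    have hne : ∀ s r, r ∈ univ.filter (fun r => r < s ∧ α r ≠ α s) → 0 < ‖α s - α r‖ := by
      intro s r hr
      rw [Finset.mem_filter] at hr
      exact norm_pos_iff.mpr (sub_ne_zero.mpr (Ne.symm hr.2.2))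
    have hlog : ∀ s : Fin g.natDegree,
        Real.exp (Real.log ((tau α s).factorial : ℝ) + tau α s * Real.log 4 - Real.log 2
          - ((tau α s : ℝ) + 1 / 2) * Real.log n +
          ∑ r ∈ univ.filter (fun r => r < s ∧ α r ≠ α s), Real.log ‖α s - α r‖) ≤
        ((tau α s).factorial : ℝ) * |(P (tau α s)).coeff (tau α s)| *
          ∏ r ∈ univ.filter (fun r => r < s ∧ α r ≠ α s), ‖α s - α r‖ := by
      intro s
      set t := tau α s with ht
      have hprod : Real.exp (∑ r ∈ univ.filter (fun r => r < s ∧ α r ≠ α s),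
          Real.log ‖α s - α r‖) =
          ∏ r ∈ univ.filter (fun r => r < s ∧ α r ≠ α s), ‖α s - α r‖ := by
        rw [Real.exp_sum]
        exact Finset.prod_congr rfl fun r hr => Real.exp_log (hne s r hr)
      rw [Real.exp_add, hprod]
      refine mul_le_mul_of_nonneg_right ?_ (Finset.prod_nonneg fun r _ => norm_nonneg _)
      have hfac : (0 : ℝ) < (t.factorial : ℝ) := by exact_mod_cast t.factorial_pos
      have hex : Real.exp (Real.log (t.factorial : ℝ) + t * Real.log 4 - Real.log 2
          - ((t : ℝ) + 1 / 2) * Real.log n) =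
          (t.factorial : ℝ) * (4 ^ t / (2 * (n : ℝ) ^ t * Real.sqrt n)) := by
        have hs2 : Real.sqrt n = Real.exp (1 / 2 * Real.log n) := by
          rw [Real.sqrt_eq_rpow, Real.rpow_def_of_pos hnR, mul_comm]
        have h4t : (4 : ℝ) ^ t = Real.exp (t * Real.log 4) := by
          rw [Real.exp_nat_mul, Real.exp_log (by norm_num)]
        have hnt : (n : ℝ) ^ t = Real.exp (t * Real.log n) := by
          rw [Real.exp_nat_mul, Real.exp_log hnR]
        have h22 : (2 : ℝ) = Real.exp (Real.log 2) := by rw [Real.exp_log (by norm_num)]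
        have hft : (t.factorial : ℝ) = Real.exp (Real.log (t.factorial : ℝ)) := by
          rw [Real.exp_log hfac]
        rw [Real.exp_sub, Real.exp_sub, Real.exp_add, ← hft, ← h4t, ← h22, add_mul, Real.exp_add,
          ← hnt, ← hs2]
        field_simp
      rw [hex]
      refine mul_le_mul_of_nonneg_left ?_ hfac.le
      exact ((hP t).2.1).trans (le_abs_self _)
    calc Real.exp (-(2 / 5 * (n : ℝ))) ≤ Real.exp (∑ s : Fin g.natDegree,
          (Real.log ((tau α s).factorial : ℝ) + tau α s * Real.log 4 - Real.log 2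
          - ((tau α s : ℝ) + 1 / 2) * Real.log n +
          ∑ r ∈ univ.filter (fun r => r < s ∧ α r ≠ α s), Real.log ‖α s - α r‖)) := by
          rw [Finset.sum_add_distrib]
          exact Real.exp_le_exp.mpr hE
      _ = ∏ s : Fin g.natDegree, Real.exp
          (Real.log ((tau α s).factorial : ℝ) + tau α s * Real.log 4 - Real.log 2
          - ((tau α s : ℝ) + 1 / 2) * Real.log n +
          ∑ r ∈ univ.filter (fun r => r < s ∧ α r ≠ α s), Real.log ‖α s - α r‖) := Real.exp_sum _ _
      _ ≤ _ := Finset.prod_le_prod (fun s _ => (Real.exp_pos _).le) fun s _ => hlog s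

end Pool.Agent.Q186.ML
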