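import Pool.Agent.H104.ML.Stm

set_option autoImplicit false

open Finset Matrix

namespace Pool.Agent.Q186.ML

open Pool.Agent.H104.ML

open scoped MatrixOrder in
theorem exists_factor {D : ℕ} (M : Matrix (Fin D) (Fin D) ℝ) (hM : M.PosSemidef) :
    ∃ B : Matrix (Fin D) (Fin D) ℝ, M = Bᴴ * B := by
  obtain ⟨B, hB⟩ := CStarAlgebra.nonneg_iff_eq_star_mul_self.mp hM.nonneg
  exact ⟨B, hB⟩

theorem t_REAL : S_REAL := by
  intro D V hV
  set M : Matrix (Fin D) (Fin D) ℝ := fun i i' => (∑ s, (starRingEnd ℂ) (V s i) * V s i').re with hM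
  have hMC : ∀ i i', ((M i i' : ℝ) : ℂ) = ∑ s, (starRingEnd ℂ) (V s i) * V s i' := by
    intro i i'
    apply Complex.ext
    · simp [hM]
    · rw [Complex.ofReal_im]; exact (hV i i').symm
  have hquad : ∀ a : Fin D → ℝ, ∑ i, ∑ i', a i * M i i' * a i' =
      ∑ s, ‖∑ i, V s i * ((a i : ℝ) : ℂ)‖ ^ 2 := by
    intro a
    have h : ((∑ i, ∑ i', a i * M i i' * a i' : ℝ) : ℂ) =
        ((∑ s, ‖∑ i, V s i * ((a i : ℝ) : ℂ)‖ ^ 2 : ℝ) : ℂ) := by
      rw [Complex.ofReal_sum, Complex.ofReal_sum]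
      have h1 : ∀ s, (((‖∑ i, V s i * ((a i : ℝ) : ℂ)‖ ^ 2 : ℝ)) : ℂ) =
          ∑ i, ∑ i', (a i : ℂ) * ((starRingEnd ℂ) (V s i) * V s i') * (a i' : ℂ) := by
        intro s
        rw [Complex.ofReal_pow, ← Complex.conj_mul', map_sum, Finset.sum_mul_sum]
        refine Finset.sum_congr rfl fun i _ => Finset.sum_congr rfl fun i' _ => ?_
        rw [map_mul, Complex.conj_ofReal]
        ring
      rw [Finset.sum_congr rfl fun s _ => h1 s, Finset.sum_comm]
      refine Finset.sum_congr rfl fun i _ => ?_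
      rw [Complex.ofReal_sum, Finset.sum_comm]
      refine Finset.sum_congr rfl fun i' _ => ?_
      rw [Complex.ofReal_mul, Complex.ofReal_mul, hMC, ← Finset.sum_mul, ← Finset.mul_sum]
    exact_mod_cast h
  have hherm : M.IsHermitian := by
    ext i i'
    rw [Matrix.conjTranspose_apply, star_trivial]
    have h : ((M i' i : ℝ) : ℂ) = ((M i i' : ℝ) : ℂ) := by
      rw [← Complex.conj_ofReal (M i' i), hMC, hMC, map_sum]
      refine Finset.sum_congr rfl fun s _ => ?_
      rw [map_mul, Complex.conj_conj, mul_comm]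
    exact_mod_cast h
  have hps : M.PosSemidef := by
    refine Matrix.PosSemidef.of_dotProduct_mulVec_nonneg hherm fun x => ?_
    have h : star x ⬝ᵥ (M *ᵥ x) = ∑ i, ∑ i', x i * M i i' * x i' := by
      simp only [dotProduct, mulVec, Pi.star_apply, star_trivial, Finset.mul_sum]
      refine Finset.sum_congr rfl fun i _ => Finset.sum_congr rfl fun i' _ => by ring
    rw [h, hquad]
    exact Finset.sum_nonneg fun s _ => by positivity
  obtain ⟨B, hB⟩ := exists_factor M hps
  have hBe : ∀ i i', M i i' = ∑ s, B s i * B s i' := by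
    intro i i'
    rw [hB, Matrix.mul_apply]
    refine Finset.sum_congr rfl fun s _ => ?_
    rw [Matrix.conjTranspose_apply, star_trivial]
  refine ⟨B, ?_, ?_⟩
  · have h1 : M.det = B.det ^ 2 := by
      rw [hB, Matrix.det_mul, Matrix.det_conjTranspose, star_trivial, sq]
    have h2 : ((M.det : ℝ) : ℂ) = ((‖V.det‖ ^ 2 : ℝ) : ℂ) := by
      have h3 : M.map (fun x : ℝ => (x : ℂ)) = Vᴴ * V := by
        ext i i'
        rw [Matrix.map_apply, hMC, Matrix.mul_apply]
        refine Finset.sum_congr rfl fun s _ => ?_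
        rw [Matrix.conjTranspose_apply]
        rfl
      have h4 : ((M.det : ℝ) : ℂ) = (M.map (fun x : ℝ => (x : ℂ))).det := by
        exact (Complex.ofRealHom).map_det M
      rw [h4, h3, Matrix.det_mul, Matrix.det_conjTranspose, Complex.ofReal_pow, ← Complex.conj_mul']
      rfl
    have h5 : M.det = ‖V.det‖ ^ 2 := by exact_mod_cast h2
    have h6 : |B.det| ^ 2 = ‖V.det‖ ^ 2 := by rw [sq_abs, ← h1, h5]
    exact (pow_left_inj₀ (abs_nonneg _) (norm_nonneg _) two_ne_zero).mp h6
  · intro a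
    rw [← hquad]
    have h1 : ∀ s, (∑ i, B s i * a i) ^ 2 = ∑ i, ∑ i', a i * (B s i * B s i') * a i' := by
      intro s
      rw [sq, Finset.sum_mul_sum]
      refine Finset.sum_congr rfl fun i _ => Finset.sum_congr rfl fun i' _ => by ring
    rw [Finset.sum_congr rfl fun s _ => h1 s, Finset.sum_comm]
    refine Finset.sum_congr rfl fun i _ => ?_
    rw [Finset.sum_comm]
    refine Finset.sum_congr rfl fun i' _ => ?_
    rw [hBe, ← Finset.sum_mul, ← Finset.mul_sum]

end Pool.Agent.Q186.ML
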